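import Pool.Agent.N461.LP.Bal
import Pool.Agent.TH200.LPj

/-! Project LK (helper461): exact `l_p` theorem for the complete 3-graphs on `2k+1` vertices.
Definitions and the statements of the leaves. -/

set_option autoImplicit false
open Finset
open scoped Classical

namespace Pool.Agent.N461.LK
open Pool.Agent.H122R2.N6 Pool.Agent.H37R3.K5
open Pool.Agent.TH200.LP
open Pool.Agent.N461.LP (dr Np Dv rm cm)

/-- the rule: an edge meets two classes -/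
def Rk {k : ℕ} (i j l : Fin k) : ℕ := if i = j ∧ j = l then 0 else 1

/-- no complete 3-graph on `2k+1` vertices -/
def NoK (k : ℕ) {V : Type} (E : V → V → V → ℕ) : Prop :=
  ∀ φ : Fin (2 * k + 1) → V, ∃ i j l, i ≠ j ∧ i ≠ l ∧ j ≠ l ∧ E (φ i) (φ j) (φ l) = 0

/-- the tuple is of `k`-partite type -/
def Bk (k : ℕ) {V ι : Type} (E : V → V → V → ℕ) (x : ι → V) : Prop :=
  ∃ c : ι → Fin k, ∀ i j l, i ≠ j → i ≠ l → j ≠ l → E (x i) (x j) (x l) = Rk (c i) (c j) (c l)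

/-- the extremal constant -/
noncomputable def Ac (k : ℕ) (p : ℝ) : ℝ :=
  (1 - 1 / (k : ℝ)) + 1 / (k : ℝ) * (1 - 1 / (k : ℝ)) ^ p

/-- LEAF A: the upper bound of `TH200.LP.upper` with slack -/
def S_A (k : ℕ) : Prop := ∃ ε p₀ : ℝ, 0 < ε ∧ ε ≤ 1 / (k : ℝ) ∧ 2 ≤ p₀ ∧ ∀ p : ℝ, p₀ ≤ p →
    ∀ (V : Type) [Fintype V] [Nonempty V] (H : V → V → V → Prop),
    (∀ x y z, H x y z → H y x z) → (∀ x y z, H x y z → H x z y) →
    (∀ φ : Fin (2 * k + 1) → V,
      ∃ i j l, i ≠ j ∧ i ≠ l ∧ j ≠ l ∧ ¬ H (φ i) (φ j) (φ l)) →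
    ∃ Δ : ℝ, 0 ≤ Δ ∧ (av fun x : V => av fun y : V => cd H x y ^ p) + Δ / 4 ≤ Ac k p ∧
      (1 / (2 * (k : ℝ) ^ 2) ≤ Δ ∨
        (c0 k ≤ t (Gr H ε) k ∧ Q (Gr H ε) 2 ≤ 2 * Δ ∧ T (Gr H ε) H ≤ C2 k * Δ ∧
          C1 k * Ls (Gr H ε) H ≤ Δ ∧ t (Gr H ε) (k + 1) ≤ k * Δ ∧ va (Gr H ε) ≤ Δ ∧
          1 - 1 / (k : ℝ) - Δ ≤ ed (Gr H ε)))

/-- good tuples: no exceptional triple and no large clique -/
def Good (k : ℕ) {V ι : Type} (G : V → V → Prop) (H : V → V → V → Prop) (z : ι → V) : Prop :=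
  (∀ i j l, i ≠ j → i ≠ l → j ≠ l → ¬ (¬ G (z i) (z j) ∧ ¬ G (z i) (z l) ∧ G (z j) (z l))) ∧
  (∀ i j l, i ≠ j → i ≠ l → j ≠ l → G (z i) (z j) → H (z i) (z j) (z l)) ∧
  (∀ i j l, i ≠ j → i ≠ l → j ≠ l → ¬ Bad G H (z i) (z j) (z l)) ∧
  (∀ σ : Fin (k + 1) → ι, Function.Injective σ → ¬ Cl G (fun a => z (σ a)))

/-- LEAF B1: few tuples are not good -/
def S_B1 : Prop := ∀ (k : ℕ) (ι : Type) [Fintype ι] [DecidableEq ι] (V : Type) [Fintype V]
    [Nonempty V] (G : V → V → Prop) (H : V → V → V → Prop), (∀ x y, G x y → G y x) →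
    (av fun z : ι → V => ind (¬ Good k G H z)) ≤
      (Fintype.card ι : ℝ) ^ 3 * (Q G 2 + Ls G H + T G H) +
        (Fintype.card ι : ℝ) ^ (k + 1) * t G (k + 1)

/-- LEAF B2: good tuples are of `k`-partite type -/
def S_B2 : Prop := ∀ (k : ℕ) (ι : Type) [Fintype ι] (V : Type) (G : V → V → Prop)
    (E : V → V → V → ℕ), 1 ≤ k → Sy E → (∀ x y, G x y → G y x) → ∀ z : ι → V,
    Good k G (fun x y z => E x y z = 1) z → Bk k E z

/-- LEAF B3: colouring by the non-neighbours in a clique -/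
def S_B3 : Prop := ∀ (k : ℕ) (V : Type) (G : V → V → Prop)
    (E : V → V → V → ℕ), 1 ≤ k → Sy E → (∀ x y, G x y → G y x) →
    ∃ g : (Fin k → V) → V → Fin k, ∀ (x : Fin k → V) (s : Fin 3 → V), Cl G x →
      Good k G (fun x y z => E x y z = 1) (Sum.elim x s : Fin k ⊕ Fin 3 → V) →
        E (s 0) (s 1) (s 2) = Rk (g x (s 0)) (g x (s 1)) (g x (s 2))

/-- number of the triples which differ from the rule -/
noncomputable def b3 {k : ℕ} {V : Type} [Fintype V] (E : V → V → V → ℕ) (g : V → Fin k) : ℕ :=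
  ((univ : Finset (Fin 3 → V)).filter fun s =>
    E (s 0) (s 1) (s 2) ≠ Rk (g (s 0)) (g (s 1)) (g (s 2))).card

/-- number of pairs for which the triples with `v` differ from the rule for a vertex of colour `j` -/
noncomputable def mm {k : ℕ} {V : Type} [Fintype V] (E : V → V → V → ℕ) (c : V → Fin k) (v : V)
    (j : Fin k) : ℕ :=
  ((univ : Finset (Fin 2 → V)).filter fun s => E v (s 0) (s 1) ≠ Rk j (c (s 0)) (c (s 1))).card

/-- the index type of the vertex lemma: three seeds in each class and two more vertices -/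
abbrev Ix (k : ℕ) : Type := (Fin k × Fin 3) ⊕ Fin 2

/-- number of tuples which together with `v` are not of `k`-partite type -/
noncomputable def Dk (k : ℕ) {V : Type} [Fintype V] (E : V → V → V → ℕ) (v : V) : ℕ :=
  ((univ : Finset (Ix k → V)).filter fun y => ¬ Bk k E (fun o : Option (Ix k) => o.elim v y)).card

/-- the size of a class -/
noncomputable def cl {k : ℕ} {V : Type} [Fintype V] (c : V → Fin k) (i : Fin k) : ℝ :=
  ((univ.filter fun v => c v = i).card : ℝ)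

/-- LEAF E: a vertex fits for some colour -/
def S_E : Prop := ∀ (k : ℕ) (V : Type) [Fintype V] (E : V → V → V → ℕ), 2 ≤ k → Sy E →
    ∀ (c : V → Fin k) (v : V), ∃ j : Fin k,
      (∏ i, cl c i ^ 3) * (mm E c v j : ℝ) ≤
        ((3 * k + 2 : ℕ) : ℝ) ^ 3 * ((b3 E c : ℝ) * (Fintype.card V : ℝ) ^ (3 * k - 1)) + Dk k E v

/-- the complete `k`-partite 3-graph (every edge meets two classes) as a function -/
noncomputable def Tf {k : ℕ} {V : Type} (c : V → Fin k) (x y z : V) : ℕ :=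
  if x ≠ y ∧ x ≠ z ∧ y ≠ z then Rk (c x) (c y) (c z) else 0

/-- extra edges -/
noncomputable def Bf {k : ℕ} {V : Type} (E : V → V → V → ℕ) (c : V → Fin k) (x y z : V) : ℝ :=
  if E x y z = 1 ∧ Tf c x y z = 0 then 1 else 0

/-- missing edges -/
noncomputable def Mf {k : ℕ} {V : Type} (E : V → V → V → ℕ) (c : V → Fin k) (x y z : V) : ℝ :=
  if E x y z = 0 ∧ Tf c x y z = 1 then 1 else 0

/-- LEAF F: the best colouring is good at every vertex (adapt `LP/Col2.lean`, `min_col`, `miss_le`) -/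
def S_F : Prop := ∀ (k : ℕ) (V : Type) [Fintype V] (E : V → V → V → ℕ), 2 ≤ k → Sy E →
    ∀ (c : V → Fin k), (∀ g : V → Fin k, b3 E c ≤ b3 E g) → ∀ (v : V) (j : Fin k),
      (∑ s, ∑ u, Mf E c v s u) ≤ (mm E c v j : ℝ) + 3 * Fintype.card V

/-- LEAF G: near-optimal patterns have no large class (apply `S_A` to the pattern) -/
def S_G (k : ℕ) : Prop := ∃ p₀ : ℝ, 2 ≤ p₀ ∧ ∀ p : ℝ, p₀ ≤ p → ∀ η : ℝ, 0 < η → ∃ α : ℝ, 0 < α ∧
    ∀ (V : Type) [Fintype V] [Nonempty V] (c : V → Fin k),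
      (Ac k p - α) * ((Fintype.card V : ℝ) ^ 2 * (Fintype.card V : ℝ) ^ p) ≤
        Np p (fun x y z => Rk (c x) (c y) (c z)) →
      ∀ i, cl c i ≤ (1 / (k : ℝ) + η) * Fintype.card V ∧
        (1 / (k : ℝ) - η) * Fintype.card V ≤ cl c i

noncomputable def lm (k : ℕ) (p : ℝ) : ℝ := (1 - 1 / (k : ℝ)) ^ p
/-- heavy threshold -/
noncomputable def e1 (k : ℕ) (p : ℝ) : ℝ := lm k p / (10 ^ 5 * (k : ℝ) ^ 3 * p)
/-- number of heavy pairs at a vertex -/
noncomputable def th (k : ℕ) (p : ℝ) : ℝ := e1 k p / 1000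

/-- the 3-graph is close to the complete `k`-partite 3-graph at every vertex -/
structure Hyp (k : ℕ) (p : ℝ) {V : Type} [Fintype V] (E : V → V → V → ℕ) (c : V → Fin k)
    (N : ℝ) : Prop where
  hk : 2 ≤ k
  hp : 2 ≤ p
  hlm : lm k p ≤ 1 / 4
  hE : Sy E
  hK : NoK k E
  hd : ∀ x z, E x x z = 0
  hN : N = Fintype.card V
  hNp : 10 ^ 7 * (k : ℝ) ^ 4 * p ≤ N
  hu : ∀ i, cl c i ≤ N / k + e1 k p * N
  hl : ∀ i, N / k - e1 k p * N ≤ cl c i
  hm : ∀ v, ∑ s, ∑ u, Mf E c v s u ≤ e1 k p * th k p * N ^ 2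

/-- LEAF I: an extra edge forces missing edges -/
def S_I : Prop := ∀ (k : ℕ) (p : ℝ) (V : Type) [Fintype V] (E : V → V → V → ℕ) (c : V → Fin k)
    (N : ℝ), Hyp k p E c N → ∀ x y z : V, Bf E c x y z = 1 →
      ∃ i, i ≠ c x ∧ cl c i ≤ ∑ w, Mf E c x y w + ∑ w, Mf E c x z w + ∑ w, Mf E c y z w +
        N / (1000 * k)

/-- the contribution of a class of size `s` -/
noncomputable def ph (p n s : ℝ) : ℝ := s * ((s - 1) * (n - s) ^ p + (n - s) * (n - 2) ^ p)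

/-- LEAF J: moving a vertex to a smaller class increases the value -/
def S_J (k : ℕ) : Prop := ∃ p₀ : ℝ, 2 ≤ p₀ ∧ ∀ p : ℝ, p₀ ≤ p → ∃ N₀ : ℝ, ∀ n a b : ℝ, N₀ ≤ n →
    n / (2 * k) ≤ a → a + 2 ≤ b → b ≤ n - 1 → a + b ≤ n →
      ph p n a + ph p n b < ph p n (a + 1) + ph p n (b - 1)

/-- LEAF K: the value of the complete `k`-partite 3-graph -/
def S_K : Prop := ∀ (k : ℕ) (p : ℝ) (V : Type) [Fintype V] (c : V → Fin k), 2 ≤ p →
    Np p (Tf c) = ∑ i, ph p (Fintype.card V) (cl c i)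

end Pool.Agent.N461.LK
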